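import Mathlib
import Pool.Agent.R924.E11

set_option autoImplicit false

/-!
Over every field there is a proper surface whose category of perfect complexes is the thick closure
of two line bundles.
-/

universe u

open CategoryTheory CategoryTheory.Limits AlgebraicGeometry

namespace Pool.Agent.Results.MP_d96382_ag.TwoLineBundlesGenerate

open Pool.Agent.W456 Pool.Agent.R924

attribute [local instance] HasDerivedCategory.standard

theorem result (k : Type u) [Field k] :
    ∃ (X : Scheme.{u}) (π : X ⟶ Spec (CommRingCat.of k)) (L : Fin 2 → X.Modules),
      IsProper π ∧ topologicalKrullDim X = 2 ∧ (∀ i, IsLineBundle (L i)) ∧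
      (ObjectProperty.ofObj fun i =>
        (DerivedCategory.singleFunctor X.Modules 0).obj (L i)).triangEnvelope = isPerfect X :=
  ⟨F₁ k, pi₁ k, L12 k, inferInstance, dim₁ k, isLineBundle_L12 k, envelope_L12 k⟩

end Pool.Agent.Results.MP_d96382_ag.TwoLineBundlesGenerate
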